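import Pool.Agent.helper90.ZD.SpecB

/-! # Project zd (MP_4467b5_nt): module BQ2 -/

set_option autoImplicit false

open Complex MeasureTheory

namespace Pool.Agent.ZD

open Pool.Agent.helper84.DM Pool.Agent.helper78.ED Pool.Agent.DH

theorem BQ2 (h1 : BQ1_stmt) (h2 : QTR_stmt) : BQ2_stmt := by
  intro W L
  rw [h1 W L]
  have h3 := h2 (W.image fun t : ℝ => ((t : ℝ) : ℂ) * I) L
  have h4 : (W.image fun t : ℝ => ((t : ℝ) : ℂ) * I).card = W.card := by
    apply Finset.card_image_of_injective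
    intro a b hab
    have h5 : ((a : ℝ) : ℂ) = ((b : ℝ) : ℂ) := mul_right_cancel₀ I_ne_zero hab
    exact_mod_cast h5
  rw [h4] at h3
  exact h3

end Pool.Agent.ZD
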